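import Mathlib

/-! Weak convergence from dyadic limits, and the Fejer integral (Mathlib only). -/

set_option autoImplicit false

open Filter Topology Set MeasureTheory

namespace Pool.Agent.L5helper21.CV

lemma down {f : ℝ → ℝ} (hc : Continuous f) (δ M C : ℝ)
    (ha : ∀ V, δ ≤ V → V ≤ M → ∫ y in V..(2 * V), f y ≤ C * V) (b : ℝ) (hb0 : 0 < b) (hb : b ≤ M)
    (K : ℕ) (hK : δ ≤ b / 2 ^ K) : ∫ y in (b / 2 ^ K)..b, f y ≤ C * (b - b / 2 ^ K) := by
  induction K with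
  | zero => simp
  | succ K ih =>
    have h4 : 2 * (b / 2 ^ (K + 1)) = b / 2 ^ K := by rw [pow_succ]; field_simp
    have hp : 0 < b / 2 ^ (K + 1) := by positivity
    have h1 : b / 2 ^ (K + 1) ≤ b / 2 ^ K := by linarith
    have h2 := ih (le_trans hK h1)
    have h3 := ha (b / 2 ^ (K + 1)) hK
      (le_trans (div_le_self hb0.le (one_le_pow₀ (by norm_num))) hb)
    rw [h4] at h3
    rw [← intervalIntegral.integral_add_adjacent_intervals
      (hc.intervalIntegrable (b / 2 ^ (K + 1)) (b / 2 ^ K)) (hc.intervalIntegrable _ _)]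
    have h5 : C * (b - b / 2 ^ (K + 1)) = C * (b / 2 ^ (K + 1)) + C * (b - b / 2 ^ K) := by
      rw [← h4]; ring
    linarith

lemma pow_between (b c : ℝ) (hc : 0 < c) (hcb : c ≤ b) :
    ∃ K : ℕ, b / 2 ^ K ≤ c ∧ c / 2 ≤ b / 2 ^ K := by
  obtain ⟨n, h1, h2⟩ := exists_nat_pow_near ((one_le_div hc).2 hcb) (by norm_num : (1 : ℝ) < 2)
  refine ⟨n + 1, ?_, ?_⟩
  · rw [div_le_iff₀ (by positivity)]
    rw [div_lt_iff₀ hc] at h2
    linarith
  · rw [le_div_iff₀ (by positivity)]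
    rw [le_div_iff₀ hc] at h1
    rw [pow_succ]
    linarith

lemma int_nonneg {f : ℝ → ℝ} (h0 : ∀ y, 0 ≤ f y) (a b : ℝ) (hab : a ≤ b) : 0 ≤ ∫ y in a..b, f y :=
  intervalIntegral.integral_nonneg hab fun y _ => h0 y

lemma small {f : ℝ → ℝ} (hc : Continuous f) (h0 : ∀ y, 0 ≤ f y) (δ M C : ℝ) (hC : 0 ≤ C) (hδ : 0 < δ)
    (ha : ∀ V, δ ≤ V → V ≤ M → ∫ y in V..(2 * V), f y ≤ C * V) (c b : ℝ) (hcδ : 2 * δ ≤ c)
    (hcb : c ≤ b) (hb : b ≤ M) : ∫ y in c..b, f y ≤ C * b := by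
  have hc0 : 0 < c := by linarith
  have hb0 : 0 < b := by linarith
  obtain ⟨K, h1, h2⟩ := pow_between b c hc0 hcb
  have h3 := down hc δ M C ha b hb0 hb K (by linarith)
  rw [← intervalIntegral.integral_add_adjacent_intervals
      (hc.intervalIntegrable (b / 2 ^ K) c) (hc.intervalIntegrable _ _)] at h3
  have h4 := int_nonneg h0 (b / 2 ^ K) c h1
  have h5 : 0 ≤ C * (b / 2 ^ K) := by positivity
  linarith

lemma cdiv {f : ℝ → ℝ} (hc : Continuous f) (a b : ℝ) (ha : 0 < a) (hb : 0 < b) :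
    IntervalIntegrable (fun y => f y / y ^ 2) volume a b := by
  refine ContinuousOn.intervalIntegrable ?_
  refine hc.continuousOn.div (by fun_prop) fun y hy => ?_
  have : 0 < y := lt_of_lt_of_le (lt_min ha hb) hy.1
  positivity

lemma upw {f : ℝ → ℝ} (hc : Continuous f) (h0 : ∀ y, 0 ≤ f y) (δ M C : ℝ)
    (ha : ∀ V, δ ≤ V → V ≤ M → ∫ y in V..(2 * V), f y ≤ C * V) (A : ℝ) (hA : 0 < A) (hδA : δ ≤ A)
    (K : ℕ) (hK : A * 2 ^ K ≤ 2 * M) :
    ∫ y in A..(A * 2 ^ K), f y / y ^ 2 ≤ C / A * (2 - 2 / 2 ^ K) := by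
  induction K with
  | zero => simp
  | succ K ih =>
    have hV : 0 < A * 2 ^ K := by positivity
    have h2 : A * 2 ^ (K + 1) = 2 * (A * 2 ^ K) := by ring
    rw [h2] at hK
    have h1 := ih (by linarith)
    have h3 : δ ≤ A * 2 ^ K := by
      have : A * 1 ≤ A * 2 ^ K := mul_le_mul_of_nonneg_left (one_le_pow₀ (by norm_num)) hA.le
      linarith
    have h4 := ha (A * 2 ^ K) h3 (by linarith)
    rw [h2, ← intervalIntegral.integral_add_adjacent_intervals
      (cdiv hc A (A * 2 ^ K) hA hV) (cdiv hc _ _ hV (by positivity))]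
    have h5 : ∫ y in (A * 2 ^ K)..(2 * (A * 2 ^ K)), f y / y ^ 2 ≤
        ∫ y in (A * 2 ^ K)..(2 * (A * 2 ^ K)), f y / (A * 2 ^ K) ^ 2 := by
      refine intervalIntegral.integral_mono_on (by linarith) (cdiv hc _ _ hV (by positivity))
        ((hc.div_const _).intervalIntegrable _ _) fun y hy => ?_
      exact div_le_div_of_nonneg_left (h0 y) (by positivity) (pow_le_pow_left₀ hV.le hy.1 2)
    rw [intervalIntegral.integral_div] at h5
    have h6 : (∫ y in (A * 2 ^ K)..(2 * (A * 2 ^ K)), f y) / (A * 2 ^ K) ^ 2 ≤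
        C * (A * 2 ^ K) / (A * 2 ^ K) ^ 2 := div_le_div_of_nonneg_right h4 (by positivity)
    have h7 : C * (A * 2 ^ K) / (A * 2 ^ K) ^ 2 = C / A * (1 / 2 ^ K) := by field_simp
    have h8 : C / A * (2 - 2 / 2 ^ (K + 1)) = C / A * (2 - 2 / 2 ^ K) + C / A * (1 / 2 ^ K) := by
      rw [pow_succ]; field_simp; ring
    rw [h8]
    linarith

lemma tailT {f : ℝ → ℝ} (hc : Continuous f) (h0 : ∀ y, 0 ≤ f y) (δ M C : ℝ) (hC : 0 ≤ C)
    (ha : ∀ V, δ ≤ V → V ≤ M → ∫ y in V..(2 * V), f y ≤ C * V) (A B : ℝ) (hA : 0 < A)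
    (hδA : δ ≤ A) (hAB : A ≤ B) (hB : B ≤ M) :
    ∫ y in A..B, f y / y ^ 2 ≤ 2 * C / A := by
  obtain ⟨n, h1, h2⟩ := exists_nat_pow_near ((one_le_div hA).2 hAB) (by norm_num : (1 : ℝ) < 2)
  rw [le_div_iff₀ hA] at h1
  rw [div_lt_iff₀ hA] at h2
  have h3 := upw hc h0 δ M C ha A hA hδA (n + 1) (by rw [pow_succ]; nlinarith)
  have hB0 : 0 < B := by linarith
  rw [← intervalIntegral.integral_add_adjacent_intervals
      (cdiv hc A B hA hB0) (cdiv hc B (A * 2 ^ (n + 1)) hB0 (by positivity))] at h3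
  have h4 : 0 ≤ ∫ y in B..(A * 2 ^ (n + 1)), f y / y ^ 2 :=
    intervalIntegral.integral_nonneg (by linarith) fun y _ => div_nonneg (h0 y) (sq_nonneg y)
  have h5 : C / A * (2 - 2 / 2 ^ (n + 1)) ≤ 2 * C / A := by
    have : 0 ≤ C / A * (2 / 2 ^ (n + 1)) := by positivity
    have e : C / A * (2 - 2 / 2 ^ (n + 1)) = 2 * C / A - C / A * (2 / 2 ^ (n + 1)) := by ring
    linarith
  linarith

lemma lim_dy (ν : ℝ → ℝ → ℝ) (ρ : ℝ) (hc : ∀ T, Continuous (ν T))
    (hb : ∀ V : ℝ, 0 < V → Tendsto (fun T => ∫ y in V..(2 * V), ν T y) atTop (𝓝 (ρ * V)))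
    (b : ℝ) (hb0 : 0 < b) (K : ℕ) :
    Tendsto (fun T => ∫ y in (b / 2 ^ K)..b, ν T y) atTop (𝓝 (ρ * (b - b / 2 ^ K))) := by
  induction K with
  | zero => simp
  | succ K ih =>
    have h4 : 2 * (b / 2 ^ (K + 1)) = b / 2 ^ K := by rw [pow_succ]; field_simp
    have h1 := hb (b / 2 ^ (K + 1)) (by positivity)
    rw [h4] at h1
    have h2 := h1.add ih
    have e : ρ * (b / 2 ^ (K + 1)) + ρ * (b - b / 2 ^ K) = ρ * (b - b / 2 ^ (K + 1)) := by
      rw [← h4]; ring
    rw [e] at h2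
    refine h2.congr fun T => ?_
    exact intervalIntegral.integral_add_adjacent_intervals
      ((hc T).intervalIntegrable _ _) ((hc T).intervalIntegrable _ _)

section
variable (ν : ℝ → ℝ → ℝ) (ρ C1 : ℝ) (hρ : 0 ≤ ρ) (hC1 : 0 ≤ C1) (hc : ∀ T, Continuous (ν T))
    (h0 : ∀ T y, 0 ≤ ν T y) (δ M : ℝ → ℝ) (hδ : Tendsto δ atTop (𝓝 0)) (hδ0 : ∀ᶠ T in atTop, 0 < δ T)
    (hM : Tendsto M atTop atTop)
    (ha : ∀ᶠ T in atTop, ∀ V : ℝ, δ T ≤ V → V ≤ M T → ∫ y in V..(2 * V), ν T y ≤ C1 * V)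
    (hb : ∀ V : ℝ, 0 < V → Tendsto (fun T => ∫ y in V..(2 * V), ν T y) atTop (𝓝 (ρ * V)))

include hρ hC1 hc h0 hδ hδ0 hM ha hb

lemma lim_int (a b : ℝ) (ha0 : 0 < a) (hab : a ≤ b) :
    Tendsto (fun T => ∫ y in a..b, ν T y) atTop (𝓝 (ρ * (b - a))) := by
  have hb0 : 0 < b := by linarith
  rw [Metric.tendsto_nhds]
  intro ε hε
  obtain ⟨K, hK⟩ : ∃ K : ℕ, (C1 + ρ) * b / 2 ^ K < ε / 3 := by
    obtain ⟨n, hn⟩ := pow_unbounded_of_one_lt ((C1 + ρ) * b / (ε / 3)) (by norm_num : (1 : ℝ) < 2)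
    refine ⟨n, ?_⟩
    rw [div_lt_iff₀ (by positivity)] at hn ⊢
    linarith
  have h1 := (lim_dy ν ρ hc hb b hb0 K)
  have h2 := (lim_dy ν ρ hc hb a ha0 K)
  rw [Metric.tendsto_nhds] at h1 h2
  have haK : 0 < a / 2 ^ K := by positivity
  filter_upwards [h1 (ε / 3) (by positivity), h2 (ε / 3) (by positivity), ha, hδ0,
    hδ.eventually_le_const (show (0 : ℝ) < a / 2 ^ K / 2 by positivity),
    hM.eventually_ge_atTop (b / 2 ^ K)] with T g1 g2 g3 g4 g5 g6
  have hab' : a / 2 ^ K ≤ b / 2 ^ K := div_le_div_of_nonneg_right hab (by positivity)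
  have g7 := small (hc T) (h0 T) (δ T) (M T) C1 hC1 g4 g3 (a / 2 ^ K) (b / 2 ^ K) (by linarith) hab' g6
  have g8 := int_nonneg (h0 T) (a / 2 ^ K) (b / 2 ^ K) hab'
  have i : ∀ p q : ℝ, IntervalIntegrable (ν T) volume p q := fun p q => (hc T).intervalIntegrable p q
  have e1 := intervalIntegral.integral_add_adjacent_intervals (i (a / 2 ^ K) (b / 2 ^ K)) (i _ b)
  have e2 := intervalIntegral.integral_add_adjacent_intervals (i (a / 2 ^ K) a) (i _ b)
  rw [Real.dist_eq] at g1 g2 ⊢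
  rw [abs_lt] at g1 g2 ⊢
  have e3 : (C1 + ρ) * b / 2 ^ K = C1 * (b / 2 ^ K) + ρ * (b / 2 ^ K) := by ring
  rw [e3] at hK
  have g9 : 0 ≤ ρ * (b / 2 ^ K) := by positivity
  have g10 : 0 ≤ ρ * (a / 2 ^ K) := by positivity
  have g11 : 0 ≤ C1 * (b / 2 ^ K) := by positivity
  have g12 : ρ * (a / 2 ^ K) ≤ ρ * (b / 2 ^ K) := mul_le_mul_of_nonneg_left hab' hρ
  have e4 : ρ * (b - b / 2 ^ K) = ρ * b - ρ * (b / 2 ^ K) := by ring
  have e5 : ρ * (a - a / 2 ^ K) = ρ * a - ρ * (a / 2 ^ K) := by ring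
  have e6 : ρ * (b - a) = ρ * b - ρ * a := by ring
  rw [e4] at g1
  rw [e5] at g2
  rw [e6]
  constructor <;> linarith [g1.1, g1.2, g2.1, g2.2]

/-- weak convergence against a function of class `C ^ 1` -/
lemma lim_g (a b : ℝ) (ha0 : 0 < a) (hab : a ≤ b) (g g' : ℝ → ℝ)
    (hg : ∀ y ∈ Icc a b, HasDerivAt g (g' y) y) (hg' : ContinuousOn g' (Icc a b)) :
    Tendsto (fun T => ∫ y in a..b, g y * ν T y) atTop (𝓝 (ρ * ∫ y in a..b, g y)) := by
  have hL := lim_int ν ρ C1 hρ hC1 hc h0 δ M hδ hδ0 hM ha hb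
  have hu : uIcc a b = Icc a b := uIcc_of_le hab
  have hi' : IntervalIntegrable g' volume a b := by
    refine ContinuousOn.intervalIntegrable ?_
    rw [hu]; exact hg'
  have parts : ∀ (v v' : ℝ → ℝ), (∀ y, HasDerivAt v (v' y) y) → Continuous v' →
      ∫ y in a..b, g y * v' y = g b * v b - g a * v a - ∫ y in a..b, g' y * v y := by
    intro v v' h1 h2
    exact intervalIntegral.integral_mul_deriv_eq_deriv_mul (fun y hy => hg y (hu ▸ hy))
      (fun y _ => h1 y) hi' (h2.intervalIntegrable _ _)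
  have hF : ∀ T y, HasDerivAt (fun y => ∫ s in a..y, ν T s) (ν T y) y := fun T y =>
    intervalIntegral.integral_hasDerivAt_right ((hc T).intervalIntegrable _ _)
      ((hc T).stronglyMeasurableAtFilter _ _) (hc T).continuousAt
  have e1 : ∀ T, ∫ y in a..b, g y * ν T y =
      g b * (∫ s in a..b, ν T s) - ∫ y in a..b, g' y * ∫ s in a..y, ν T s := by
    intro T
    rw [parts _ _ (hF T) (hc T)]
    simp
  have e2 : ρ * ∫ y in a..b, g y =
      g b * (ρ * (b - a)) - ∫ y in a..b, g' y * (ρ * (y - a)) := by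
    have h := parts (fun y => ρ * (y - a)) (fun _ => ρ)
      (fun y => by simpa using ((hasDerivAt_id y).sub_const a).const_mul ρ) continuous_const
    rw [intervalIntegral.integral_mul_const] at h
    rw [mul_comm, h]
    simp
  rw [e2]
  refine Tendsto.congr (fun T => (e1 T).symm) ?_
  refine ((hL a b ha0 hab).const_mul (g b)).sub ?_
  have hbd : ∀ᶠ T in atTop, ∫ s in a..b, ν T s ≤ ρ * (b - a) + 1 :=
    (hL a b ha0 hab).eventually_le_const (by linarith)
  refine intervalIntegral.tendsto_integral_filter_of_dominated_convergence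
    (fun y => |g' y| * (ρ * (b - a) + 1)) ?_ ?_ ?_ ?_
  · refine Eventually.of_forall fun T => ?_
    refine ContinuousOn.aestronglyMeasurable ?_ measurableSet_uIoc
    rw [uIoc_of_le hab]
    refine (hg'.mono Ioc_subset_Icc_self).mul ?_
    exact (continuous_iff_continuousAt.2 fun y => (hF T y).continuousAt).continuousOn
  · filter_upwards [hbd] with T hT
    refine Eventually.of_forall fun y hy => ?_
    rw [uIoc_of_le hab] at hy
    rw [norm_mul, Real.norm_eq_abs, Real.norm_eq_abs]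
    refine mul_le_mul_of_nonneg_left ?_ (abs_nonneg _)
    have h1 := int_nonneg (h0 T) a y hy.1.le
    have h2 := int_nonneg (h0 T) y b hy.2
    rw [abs_of_nonneg h1]
    have h3 := intervalIntegral.integral_add_adjacent_intervals
      ((hc T).intervalIntegrable (μ := volume) a y) ((hc T).intervalIntegrable y b)
    linarith
  · refine (IntervalIntegrable.norm hi').mul_const _
  · refine Eventually.of_forall fun y hy => ?_
    rw [uIoc_of_le hab] at hy
    exact (hL a y ha0 hy.1.le).const_mul (g' y)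

end

lemma kd (y : ℝ) (hy : 0 < y) : HasDerivAt (fun y : ℝ => (2 - 2 * Real.cos y) / y ^ 2)
    ((2 * Real.sin y * y ^ 2 - (2 - 2 * Real.cos y) * (2 * y)) / (y ^ 2) ^ 2) y := by
  have h1 : HasDerivAt (fun y : ℝ => 2 - 2 * Real.cos y) (2 * Real.sin y) y := by
    have := ((Real.hasDerivAt_cos y).const_mul 2).const_sub 2
    simpa using this
  have h2 : HasDerivAt (fun y : ℝ => y ^ 2) (2 * y) y := by
    simpa using hasDerivAt_pow 2 y
  exact h1.div h2 (by positivity)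

lemma cos_lip (u v : ℝ) : |Real.cos u - Real.cos v| ≤ |u - v| := by
  have h := Real.cos_sub_cos u v
  rw [h, abs_mul, abs_mul, abs_neg, abs_two]
  have h1 := Real.abs_sin_le_one ((u + v) / 2)
  have h2 := Real.abs_sin_le_abs (x := (u - v) / 2)
  have h3 : |(u - v) / 2| = |u - v| / 2 := by rw [abs_div, abs_two]
  rw [h3] at h2
  have h4 := abs_nonneg (Real.sin ((u - v) / 2))
  have h5 := abs_nonneg (Real.sin ((u + v) / 2))
  nlinarith

/-- the Fejer integral -/
theorem fejer0 (hpi : ∀ a b : ℝ, 0 < a → a ≤ b → ∫ y in a..b, (2 - 2 * Real.cos y) / y ^ 2 ≤ Real.pi)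
    (ν : ℝ → ℝ → ℝ) (ρ C1 : ℝ) (hρ : 0 ≤ ρ) (hC1 : 0 ≤ C1) (hc : ∀ T, Continuous (ν T))
    (h0 : ∀ T y, 0 ≤ ν T y)
    (ha : ∀ᶠ T in atTop, ∀ V : ℝ, 1 / Real.log T ^ 3 ≤ V → V ≤ Real.log T ^ 3 →
      ∫ y in V..(2 * V), ν T y ≤ C1 * V)
    (hb : ∀ V : ℝ, 0 < V → Tendsto (fun T => ∫ y in V..(2 * V), ν T y) atTop (𝓝 (ρ * V)))
    (x : ℝ → ℝ) (hx : Tendsto x atTop (𝓝 1)) (ε : ℝ) (hε : 0 < ε) : ∀ᶠ T in atTop,
    ∫ y in (1 / Real.log T ^ 2)..(Real.log T ^ 2), (2 - 2 * Real.cos (x T * y)) / y ^ 2 * ν T y ≤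
      Real.pi * ρ + ε := by
  have hLog : Tendsto (fun T : ℝ => Real.log T) atTop atTop := Real.tendsto_log_atTop
  have hM : Tendsto (fun T : ℝ => Real.log T ^ 3) atTop atTop :=
    (tendsto_pow_atTop (by norm_num : (3 : ℕ) ≠ 0)).comp hLog
  have hM2 : Tendsto (fun T : ℝ => Real.log T ^ 2) atTop atTop :=
    (tendsto_pow_atTop (by norm_num : (2 : ℕ) ≠ 0)).comp hLog
  have hδ : Tendsto (fun T : ℝ => 1 / Real.log T ^ 3) atTop (𝓝 0) := by
    refine hM.inv_tendsto_atTop.congr fun T => ?_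
    simp
  have hδ2 : Tendsto (fun T : ℝ => 1 / Real.log T ^ 2) atTop (𝓝 0) := by
    refine hM2.inv_tendsto_atTop.congr fun T => ?_
    simp
  have hδ0 : ∀ᶠ T : ℝ in atTop, 0 < 1 / Real.log T ^ 3 := by
    filter_upwards [hLog.eventually_gt_atTop 0] with T hT
    positivity
  set a : ℝ := ε / (20 * (C1 + 1)) with hadef
  set A : ℝ := 40 * (C1 + 1) / ε + 1 + a with hAdef
  have ha0 : 0 < a := by positivity
  have hA0 : 0 < A := by positivity
  have haA : a ≤ A := by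
    have : 0 ≤ 40 * (C1 + 1) / ε := by positivity
    linarith
  have b1 : 4 * (C1 * a) ≤ ε / 5 := by
    have : a * (20 * (C1 + 1)) = ε := by rw [hadef]; field_simp
    nlinarith
  have b2 : 4 * (2 * C1 / A) ≤ ε / 5 := by
    rw [← mul_div_assoc, div_le_iff₀ hA0]
    have : ε * (40 * (C1 + 1) / ε) = 40 * (C1 + 1) := by field_simp
    have h2 : ε * A = ε * (40 * (C1 + 1) / ε) + ε + ε * a := by rw [hAdef]; ring
    have h3 : 0 ≤ ε * a := by positivity
    nlinarith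
  have hL := lim_int ν ρ C1 hρ hC1 hc h0 _ _ hδ hδ0 hM ha hb a A ha0 haA
  have hG := lim_g ν ρ C1 hρ hC1 hc h0 _ _ hδ hδ0 hM ha hb a A ha0 haA
    (fun y : ℝ => (2 - 2 * Real.cos y) / y ^ 2)
    (fun y => (2 * Real.sin y * y ^ 2 - (2 - 2 * Real.cos y) * (2 * y)) / (y ^ 2) ^ 2)
    (fun y hy => kd y (lt_of_lt_of_le ha0 hy.1))
    (by
      refine ContinuousOn.div (by fun_prop) (by fun_prop) fun y hy => ?_
      have : 0 < y := lt_of_lt_of_le ha0 hy.1
      positivity)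
  have hG1 := hG.eventually_le_const (show ρ * ∫ y in a..A, (2 - 2 * Real.cos y) / y ^ 2 <
      Real.pi * ρ + ε / 5 by
    have := mul_le_mul_of_nonneg_left (hpi a A ha0 haA) hρ
    linarith)
  have hX : Tendsto (fun T => 2 * |x T - 1| / a * ∫ y in a..A, ν T y) atTop
      (𝓝 (2 * |1 - 1| / a * (ρ * (A - a)))) :=
    (((hx.sub_const 1).abs.const_mul 2).div_const a).mul hL
  have hX1 := hX.eventually_le_const (show 2 * |(1 : ℝ) - 1| / a * (ρ * (A - a)) < ε / 5 by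
    simp; positivity)
  filter_upwards [ha, hG1, hX1, hx.eventually_le_const (show (1 : ℝ) < 2 by norm_num),
    hx.eventually_const_le (show (-2 : ℝ) < 1 by norm_num), hLog.eventually_ge_atTop 2,
    hδ2.eventually_le_const ha0, hM2.eventually_ge_atTop A] with T g1 g2 g3 g4 g5 g6 g7 g8
  have hlo : 0 < 1 / Real.log T ^ 2 := by positivity
  have hd0 : 0 < 1 / Real.log T ^ 3 := by positivity
  have h2d : 2 * (1 / Real.log T ^ 3) ≤ 1 / Real.log T ^ 2 := by
    rw [← mul_div_assoc, div_le_div_iff₀ (by positivity) (by positivity)]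
    have : 0 ≤ Real.log T ^ 2 := by positivity
    nlinarith
  have hMM : Real.log T ^ 2 ≤ Real.log T ^ 3 := by
    have : 0 ≤ Real.log T ^ 2 := by positivity
    nlinarith
  have k0 : ∀ y : ℝ, 0 ≤ (2 - 2 * Real.cos (x T * y)) / y ^ 2 := fun y =>
    div_nonneg (by linarith [Real.cos_le_one (x T * y)]) (sq_nonneg y)
  have hii : ∀ p q : ℝ, 0 < p → 0 < q →
      IntervalIntegrable (fun y => (2 - 2 * Real.cos (x T * y)) / y ^ 2 * ν T y) volume p q := by
    intro p q hp hq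
    refine ContinuousOn.intervalIntegrable ?_
    refine ContinuousOn.mul (ContinuousOn.div (by fun_prop) (by fun_prop) fun y hy => ?_)
      (hc T).continuousOn
    have : 0 < y := lt_of_lt_of_le (lt_min hp hq) hy.1
    positivity
  have hii1 : ∀ p q : ℝ, 0 < p → 0 < q →
      IntervalIntegrable (fun y => (2 - 2 * Real.cos y) / y ^ 2 * ν T y) volume p q := by
    intro p q hp hq
    refine ContinuousOn.intervalIntegrable ?_
    refine ContinuousOn.mul (ContinuousOn.div (by fun_prop) (by fun_prop) fun y hy => ?_)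
      (hc T).continuousOn
    have : 0 < y := lt_of_lt_of_le (lt_min hp hq) hy.1
    positivity
  have hhi : 0 < Real.log T ^ 2 := by positivity
  rw [← intervalIntegral.integral_add_adjacent_intervals (hii _ a hlo ha0) (hii a _ ha0 hhi),
    ← intervalIntegral.integral_add_adjacent_intervals (hii a A ha0 hA0) (hii A _ hA0 hhi)]
  have p1 : ∫ y in (1 / Real.log T ^ 2)..a, (2 - 2 * Real.cos (x T * y)) / y ^ 2 * ν T y ≤
      4 * (C1 * a) := by
    have q1 : ∫ y in (1 / Real.log T ^ 2)..a, (2 - 2 * Real.cos (x T * y)) / y ^ 2 * ν T y ≤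
        ∫ y in (1 / Real.log T ^ 2)..a, 4 * ν T y := by
      refine intervalIntegral.integral_mono_on g7 (hii _ _ hlo ha0)
        ((continuous_const.mul (hc T)).intervalIntegrable _ _) fun y hy => ?_
      refine mul_le_mul_of_nonneg_right ?_ (h0 T y)
      have hy0 : 0 < y := lt_of_lt_of_le hlo hy.1
      rw [div_le_iff₀ (by positivity)]
      have h1 := Real.one_sub_sq_div_two_le_cos (x := x T * y)
      have h2 : x T ^ 2 ≤ 4 := by nlinarith
      have h3 : (x T * y) ^ 2 ≤ 4 * y ^ 2 := by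
        rw [mul_pow]; exact mul_le_mul_of_nonneg_right h2 (sq_nonneg y)
      linarith
    rw [intervalIntegral.integral_const_mul] at q1
    have q2 := small (hc T) (h0 T) (1 / Real.log T ^ 3) (Real.log T ^ 3) C1 hC1 hd0 g1
      (1 / Real.log T ^ 2) a h2d g7 (by linarith)
    linarith
  have p3 : ∫ y in A..(Real.log T ^ 2), (2 - 2 * Real.cos (x T * y)) / y ^ 2 * ν T y ≤
      4 * (2 * C1 / A) := by
    have q1 : ∫ y in A..(Real.log T ^ 2), (2 - 2 * Real.cos (x T * y)) / y ^ 2 * ν T y ≤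
        ∫ y in A..(Real.log T ^ 2), 4 * (ν T y / y ^ 2) := by
      refine intervalIntegral.integral_mono_on g8 (hii _ _ hA0 hhi)
        ((cdiv (hc T) _ _ hA0 hhi).const_mul 4) fun y hy => ?_
      have hy0 : 0 < y := lt_of_lt_of_le hA0 hy.1
      have h1 : (2 - 2 * Real.cos (x T * y)) / y ^ 2 ≤ 4 / y ^ 2 :=
        div_le_div_of_nonneg_right (by linarith [Real.neg_one_le_cos (x T * y)]) (sq_nonneg y)
      calc (2 - 2 * Real.cos (x T * y)) / y ^ 2 * ν T y ≤ 4 / y ^ 2 * ν T y :=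
            mul_le_mul_of_nonneg_right h1 (h0 T y)
        _ = 4 * (ν T y / y ^ 2) := by ring
    rw [intervalIntegral.integral_const_mul] at q1
    have q2 := tailT (hc T) (h0 T) (1 / Real.log T ^ 3) (Real.log T ^ 3) C1 hC1 g1 A
      (Real.log T ^ 2) hA0 (by linarith) g8 hMM
    linarith
  have p2 : ∫ y in a..A, (2 - 2 * Real.cos (x T * y)) / y ^ 2 * ν T y ≤
      (∫ y in a..A, (2 - 2 * Real.cos y) / y ^ 2 * ν T y) + 2 * |x T - 1| / a * ∫ y in a..A, ν T y := by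
    have hci : IntervalIntegrable (fun y => 2 * |x T - 1| / a * ν T y) volume a A :=
      (continuous_const.mul (hc T)).intervalIntegrable _ _
    rw [← intervalIntegral.integral_const_mul, ← intervalIntegral.integral_add (hii1 a A ha0 hA0) hci]
    refine intervalIntegral.integral_mono_on haA (hii _ _ ha0 hA0)
      ((hii1 a A ha0 hA0).add hci) fun y hy => ?_
    rw [← add_mul]
    refine mul_le_mul_of_nonneg_right ?_ (h0 T y)
    have hy0 : 0 < y := lt_of_lt_of_le ha0 hy.1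
    have h1 := (abs_le.1 (cos_lip (x T * y) y)).1
    have h2 : |x T * y - y| = |x T - 1| * y := by
      rw [show x T * y - y = (x T - 1) * y by ring, abs_mul, abs_of_pos hy0]
    rw [h2] at h1
    have h3 : (2 - 2 * Real.cos (x T * y)) / y ^ 2 ≤
        (2 - 2 * Real.cos y + 2 * (|x T - 1| * y)) / y ^ 2 :=
      div_le_div_of_nonneg_right (by linarith) (sq_nonneg y)
    have h4 : (2 - 2 * Real.cos y + 2 * (|x T - 1| * y)) / y ^ 2 =
        (2 - 2 * Real.cos y) / y ^ 2 + 2 * |x T - 1| / y := by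
      field_simp
    have h5 : 2 * |x T - 1| / y ≤ 2 * |x T - 1| / a :=
      div_le_div_of_nonneg_left (by positivity) ha0 hy.1
    linarith
  linarith

end Pool.Agent.L5helper21.CV
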