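import Pool.Agent.L5helper12.CV.Defs
import Pool.Agent.L5helper10.TV.Num
import Pool.Agent.L5helper21.CV.Fe

/-! CV11: the Fejer integral (for helper12). -/

set_option autoImplicit false

open Filter Topology Set MeasureTheory

namespace Pool.Agent.L5helper21.CV

open Pool.Agent.L5helper12.PV

theorem fejer_int (ν : ℝ → ℝ → ℝ) (ρ C1 : ℝ) (hρ : 0 ≤ ρ) (hC1 : 0 ≤ C1) (hc : ∀ T, Continuous (ν T))
    (h0 : ∀ T y, 0 ≤ ν T y)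
    (ha : ∀ᶠ T in atTop, ∀ V : ℝ, 1 / Real.log T ^ 3 ≤ V → V ≤ Real.log T ^ 3 →
      ∫ y in V..(2 * V), ν T y ≤ C1 * V)
    (hb : ∀ V : ℝ, 0 < V → Tendsto (fun T => ∫ y in V..(2 * V), ν T y) atTop (𝓝 (ρ * V)))
    (x : ℝ → ℝ) (hx : Tendsto x atTop (𝓝 1)) (ε : ℝ) (hε : 0 < ε) : ∀ᶠ T in atTop,
    ∫ y in (1 / Real.log T ^ 2)..(Real.log T ^ 2), qf (x T) y / y ^ 2 * ν T y ≤ Real.pi * ρ + ε := by
  exact fejer0 (fun a b h1 h2 => Pool.Agent.L5helper10.TV.hs_upper a b h1 h2) ν ρ C1 hρ hC1 hc h0 ha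
    hb x hx ε hε

end Pool.Agent.L5helper21.CV
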